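import Pool.Agent.Helper80_TWC.Stmts
import Pool.Agent.Helper25_TWC.Sys

/-!
# MP_ff6f12_co, squad TWC: module COL (helper86)
-/

set_option autoImplicit false

open SimpleGraph

namespace Pool.Agent.TWC80.H86

open Pool.Agent.RS80 Pool.Agent.RS81 Pool.Agent.SEP60

/-- One colour: the hub edges of the world `α`, the pieces of the other world. -/
def HG {I Y E : Type} {a : ℕ} (ty : I → Bool) (inc : E → I → Y)
    (P : Bool → SimpleGraph (I ⊕ Fin a)) (α : Bool) : SimpleGraph (Wt a Y E) :=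
  SimpleGraph.fromRel fun x y =>
    (∃ h z, x = hub α h ∧ y = pt α z) ∨
    (∃ u v, (Sys ty inc (P (!α))).Adj u v ∧ x = om (!α) u ∧ y = om (!α) v)

/-- The vertices of the complete bipartite graph of the world `α`. -/
def kh {a : ℕ} {Y E : Type} (α : Bool) : Fin a ⊕ Y → Wt a Y E
  | .inl h => hub α h
  | .inr y => pt α y

theorem kh_inj {a : ℕ} {Y E : Type} (α : Bool) :
    Function.Injective (kh (a := a) (Y := Y) (E := E) α) := by
  rintro (h | y) (h' | y') e <;> simp_all [kh]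

theorem om_inj {a : ℕ} {Y E : Type} (α : Bool) :
    Function.Injective (om (a := a) (Y := Y) (E := E) α) := by
  rintro (⟨y, b⟩ | ⟨e, h⟩) (⟨y', b'⟩ | ⟨e', h'⟩) he
  · rcases b <;> rcases b' <;> simp_all [om]
  · rcases b <;> simp_all [om]
  · rcases b' <;> simp_all [om]
  · simp_all [om]

theorem kh_ne_om {a : ℕ} {Y E : Type} (α : Bool) (z : Fin a ⊕ Y) (u : (Y × Bool) ⊕ (E × Fin a)) :
    kh (a := a) (Y := Y) (E := E) α z ≠ om (!α) u := by
  rcases z with h | y <;> rcases u with ⟨y', b⟩ | ⟨e, h'⟩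
  · rcases b <;> simp [kh, om]
  · simp [kh, om]
  · rcases b
    · simp [kh, om]
    · intro he
      simp only [kh, om, Sum.inr.injEq, Sum.inl.injEq, Prod.mk.injEq] at he
      rcases α <;> simp at he
  · simp [kh, om]

/-- An edge of `HG`. -/
theorem hg_adj {I Y E : Type} {a : ℕ} (ty : I → Bool) (inc : E → I → Y)
    (P : Bool → SimpleGraph (I ⊕ Fin a)) (α : Bool) {x y : Wt a Y E}
    (h : (HG ty inc P α).Adj x y) :
    (∃ s t, (completeBipartiteGraph (Fin a) Y).Adj s t ∧ x = kh α s ∧ y = kh α t) ∨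
    (∃ u v, (Sys ty inc (P (!α))).Adj u v ∧ x = om (!α) u ∧ y = om (!α) v) := by
  rw [HG, SimpleGraph.fromRel_adj] at h
  rcases h.2 with (⟨k, z, h1, h2⟩ | h1) | ⟨k, z, h1, h2⟩ | ⟨u, v, h1, h2, h3⟩
  · exact Or.inl ⟨.inl k, .inr z, by simp [completeBipartiteGraph], h1, h2⟩
  · exact Or.inr h1
  · exact Or.inl ⟨.inr z, .inl k, by simp [completeBipartiteGraph], h2, h1⟩
  · exact Or.inr ⟨v, u, h1.symm, h3, h2⟩

theorem hg_free {V : Type} [Finite V] (B : SimpleGraph V) (hB : TwoConn B) (a : ℕ)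
    (hK : ∀ N, B.Free (completeBipartiteGraph (Fin a) (Fin N)))
    {I Y E : Type} [Finite I] [Finite Y] [Finite E] (ty : I → Bool) (inc : E → I → Y)
    (P : Bool → SimpleGraph (I ⊕ Fin a))
    (hinc : ∀ e, Function.Injective (inc e)) (hleaf : LeafyI (Nat.card V ^ 2) inc)
    (hP : ∀ α, B.Free (P α)) (α : Bool) : B.Free (HG ty inc P α) := by
  rintro ⟨f⟩
  have finj : ∀ u v, f u = f v → u = v := fun u v h => f.injective h
  have hedge : ∀ u v, B.Adj u v →
      (∃ s t, (completeBipartiteGraph (Fin a) Y).Adj s t ∧ f u = kh α s ∧ f v = kh α t) ∨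
      (∃ x y, (Sys ty inc (P (!α))).Adj x y ∧ f u = om (!α) x ∧ f v = om (!α) y) :=
    fun u v h => hg_adj ty inc P α (f.toHom.map_adj h)
  obtain ⟨v0⟩ := hB.2.1.nonempty
  obtain ⟨v1, h01⟩ := hB.exists_adj v0
  rcases hedge v0 v1 h01 with ⟨s, t, _, h2, _⟩ | ⟨x, y, _, h2, _⟩
  · have hall : ∀ v, ∃ s, f v = kh α s := by
      intro v
      refine prop_of_preconnected hB.2.1.preconnected (fun v => ∃ s, f v = kh α s)
        (fun u v huv hu => ?_) (⟨s, h2⟩ : ∃ s, f v0 = kh α s) v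
      obtain ⟨s', hs'⟩ := hu
      rcases hedge u v huv with ⟨_, t', _, _, h4⟩ | ⟨x', _, _, h4, _⟩
      · exact ⟨t', h4⟩
      · exact absurd (hs'.symm.trans h4) (kh_ne_om α s' x')
    choose k hk using hall
    have kadj : ∀ u v, B.Adj u v → (completeBipartiteGraph (Fin a) Y).Adj (k u) (k v) := by
      intro u v huv
      rcases hedge u v huv with ⟨s', t', h3, h4, h5⟩ | ⟨x', _, _, h4, _⟩
      · have e1 : s' = k u := kh_inj α (h4.symm.trans (hk u))
        have e2 : t' = k v := kh_inj α (h5.symm.trans (hk v))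
        rw [← e1, ← e2]
        exact h3
      · exact absurd ((hk u).symm.trans h4) (kh_ne_om α _ x')
    let e : Y ≃ Fin (Nat.card Y) := Finite.equivFin Y
    refine hK (Nat.card Y) ⟨⟨⟨fun v => Sum.map id e (k v), fun {u v} h => ?_⟩, fun u v h => ?_⟩⟩
    · have h1 := kadj u v h
      rcases h3 : k u with s1 | s1 <;> rcases h4 : k v with s2 | s2 <;>
        rw [h3, h4] at h1 <;> simp_all [completeBipartiteGraph]
    · have h' : Sum.map id e (k u) = Sum.map id e (k v) := h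
      have h3 : k u = k v := by
        rcases h4 : k u with s1 | s1 <;> rcases h5 : k v with s2 | s2 <;>
          rw [h4, h5] at h' <;> simp_all
      exact finj u v (by rw [hk u, hk v, h3])
  · have hall : ∀ v, ∃ x, f v = om (!α) x := by
      intro v
      refine prop_of_preconnected hB.2.1.preconnected (fun v => ∃ x, f v = om (!α) x)
        (fun u v huv hu => ?_) (⟨x, h2⟩ : ∃ x, f v0 = om (!α) x) v
      obtain ⟨x', hx'⟩ := hu
      rcases hedge u v huv with ⟨s', _, _, h4, _⟩ | ⟨_, y', _, _, h4⟩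
      · exact absurd (h4.symm.trans hx') (kh_ne_om α s' x')
      · exact ⟨y', h4⟩
    choose k hk using hall
    have kadj : ∀ u v, B.Adj u v → (Sys ty inc (P (!α))).Adj (k u) (k v) := by
      intro u v huv
      rcases hedge u v huv with ⟨s', _, _, h4, _⟩ | ⟨x', y', h3, h4, h5⟩
      · exact absurd (h4.symm.trans (hk u)) (kh_ne_om α s' _)
      · have e1 : x' = k u := om_inj (!α) (h4.symm.trans (hk u))
        have e2 : y' = k v := om_inj (!α) (h5.symm.trans (hk v))
        rw [← e1, ← e2]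
        exact h3
    refine H25.sys V B hB I Y E (Fin a) ty inc (P (!α)) hinc hleaf (hP (!α))
      ⟨⟨⟨k, fun {u v} h => kadj u v h⟩, fun u v h => finj u v ?_⟩⟩
    have h' : k u = k v := h
    rw [hk u, hk v, h']

/-- COL: the colouring of `GG`. -/
theorem col : ColStmt := by
  intro V _ B hB a hK I Y E _ _ _ ty inc P hinc hleaf hP
  refine ⟨HG ty inc P true, HG ty inc P false, ?_,
    hg_free B hB a hK ty inc P hinc hleaf hP true,
    hg_free B hB a hK ty inc P hinc hleaf hP false⟩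
  ext x y
  simp only [SimpleGraph.sup_adj, HG, GG, SimpleGraph.fromRel_adj, Bool.exists_bool,
    Bool.not_true, Bool.not_false]
  have key : ∀ N A1 A2 A3 A4 B1 B2 B3 B4 : Prop,
      (N ∧ ((A1 ∨ A2) ∨ A3 ∨ A4) ∨ N ∧ ((B1 ∨ B2) ∨ B3 ∨ B4)) ↔
      N ∧ (((B1 ∨ A1) ∨ A2 ∨ B2) ∨ (B3 ∨ A3) ∨ A4 ∨ B4) := by
    intro N A1 A2 A3 A4 B1 B2 B3 B4
    tauto
  exact key _ _ _ _ _ _ _ _ _

end Pool.Agent.TWC80.H86
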